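import Pool.Agent.H23.GB.AF4

/-!
Row AFH of the board gb: the approximate functional equation.
-/

namespace Pool.Agent.H23.GB

open MeasureTheory Real Pool.Agent.H34.GA

open AF

theorem pf_AFH : T_AFH := by
  intro m hm r0 B ε hr0 hB hε
  have hmr : (1 : ℝ) ≤ m := by exact_mod_cast hm
  have hm0 : (m : ℝ) ≠ 0 := by positivity
  have hlr : 0 ≤ Real.log r0 := Real.log_nonneg hr0
  set lr := Real.log r0 with hlrd
  obtain ⟨K1, hK1⟩ := exists_nat_ge (((m : ℝ) * (m + 2) + (m : ℝ) ^ 2) / ε)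
  obtain ⟨a0, ha0⟩ := exists_nat_ge (lr + 1)
  have hS := S0_nn
  refine ⟨kk m, m * (m + 2 + K1), Real.exp (m * (2 + lr)) + (3 / ε + 2 + a0) + 2 * (B * S0),
    kk_krn m hm, by positivity, ?_⟩
  intro N d M lam ψ ψ' hN hd hd2 hM hψ hψ' hsup hdec hlam hFE hMel hMel' X hX t
  set C : ℝ := Real.exp (m * (2 + lr)) + (3 / ε + 2 + a0) + 2 * (B * S0) with hC
  set σ : ℝ := (m : ℝ) ^ 2 / 2 with hσ
  have hN0 : 0 < N := by linarith
  -- logarithms
  set L : ℝ := Real.log N / m with hL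
  set Dl : ℝ := -Real.log d with hDl
  have hL0 : 0 ≤ L := div_nonneg (Real.log_nonneg hN) (by positivity)
  have hDl0 : 0 < Dl := by
    rw [hDl, neg_pos]
    exact Real.log_neg hd (by linarith)
  have hNe : Real.exp (m * L) = N := by
    rw [hL, mul_div_cancel₀ _ hm0, Real.exp_log hN0]
  have hde : Real.exp Dl = d⁻¹ := by
    rw [hDl, Real.exp_neg, Real.exp_log hd]
  set Λ : ℝ := L + Dl with hΛ
  have hΛ0 : 0 < Λ := by linarith
  have hY : (N * d⁻¹ ^ m) ^ (1 / 2 : ℝ) = Real.exp (m * Λ / 2) := by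
    rw [← hNe, ← hde, ← Real.exp_nat_mul, ← Real.exp_add, ← Real.exp_mul]
    congr 1
    rw [hΛ]
    ring
  have hNd : N / d = Real.exp (m * L + Dl) := by
    rw [Real.exp_add, hNe, hde, div_eq_mul_inv]
  have hΛm : Λ ≤ m * L + Dl := by
    have := le_mul_of_one_le_left hL0 hmr
    linarith
  have hpow : Real.exp (ε * Λ) ≤ (N / d) ^ ε := by
    rw [hNd, ← Real.exp_mul]
    rw [Real.exp_le_exp, mul_comm]
    exact mul_le_mul_of_nonneg_right hΛm hε.le
  have hpow1 : 1 ≤ (N / d) ^ ε := (Real.one_le_exp (by positivity)).trans hpow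
  have hXl : Real.exp (m * Λ / 2) * Real.exp (ε * Λ) * Real.exp (m * (2 + lr)) ≤ X := by
    refine le_trans ?_ hX
    rw [hY]
    calc Real.exp (m * Λ / 2) * Real.exp (ε * Λ) * Real.exp (m * (2 + lr)) ≤
          Real.exp (m * Λ / 2) * (N / d) ^ ε * C := by
          refine mul_le_mul (mul_le_mul_of_nonneg_left hpow (Real.exp_pos _).le) ?_
            (Real.exp_pos _).le (by positivity)
          rw [hC]
          have : 0 ≤ 3 / ε + 2 + (a0 : ℝ) := by positivity
          have : 0 ≤ 2 * (B * S0) := by positivity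
          linarith
      _ = _ := by ring
  have hX0 : 0 < (X : ℝ) := lt_of_lt_of_le (by positivity) hXl
  have hX1 : 1 ≤ X := by
    have : 0 < X := by exact_mod_cast hX0
    omega
  -- the integers
  set b : ℕ := ⌈Λ / 2⌉₊ with hb
  have hb1 : Λ / 2 ≤ b := Nat.le_ceil _
  have hb2 : (b : ℝ) < Λ / 2 + 1 := Nat.ceil_lt_add_one (by positivity)
  set J2 : ℕ := ⌈2 * Λ⌉₊ with hJ2
  have hj1 : 2 * Λ ≤ J2 := Nat.le_ceil _
  have hj2 : (J2 : ℝ) < 2 * Λ + 1 := Nat.ceil_lt_add_one (by positivity)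
  have hΛε : Λ ≤ (N / d) ^ ε / ε := by
    rw [le_div_iff₀ hε]
    have h1 := Real.add_one_le_exp (ε * Λ)
    have h2 : Λ * ε = ε * Λ := mul_comm _ _
    linarith
  set I0 : ℝ := ∫ τ : ℝ, kk m τ * ‖SX lam X (1 / 2 + ((t + τ : ℝ) : ℂ) * Complex.I)‖ with hI0
  have hI00 : 0 ≤ I0 := integral_nonneg fun τ => mul_nonneg ((kk_krn m hm).nn τ) (norm_nonneg _)
  -- the Mellin transforms in the additive variable
  have hLm : LmA m ψ lam (1 / 2 + t * Complex.I) =
      ∫ x, thA m ψ lam (Real.exp x) * ex σ m t x := by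
    unfold LmA
    exact mel_exp m (thA m ψ lam) t
  have hMe : ∀ t : ℝ, ‖∫ x, ψ (Real.exp x) * ex σ m t x‖ ≤ M := by
    intro t
    have := hMel t
    unfold MelA at this
    rwa [mel_exp m ψ t] at this
  have hMe' : ∀ t : ℝ, ‖∫ x, ψ' (Real.exp x) * ex σ m t x‖ ≤ M := by
    intro t
    have := hMel' t
    unfold MelA at this
    rwa [mel_exp m ψ' t] at this
  rw [hLm]
  have hRnn : 0 ≤ C * M * (N / d) ^ ε * (1 + I0) := by positivity
  by_cases hF : Integrable fun x => thA m ψ lam (Real.exp x) * ex σ m t x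
  swap
  · rw [integral_undef hF, norm_zero]
    exact hRnn
  -- the direct part
  obtain ⟨Gh, hG, -⟩ := cut1 (-(a0 : ℝ)) (b + a0)
  obtain ⟨hi1, -, hbd1⟩ := dir_bd (direct_int (m := m) hr0 hψ hsup) hG hm0 t M hMe
    (Finset.Icc 1 X) (ac m lam) (ll m)
  simp only [sum_SX hm] at hbd1
  have hkk := kk_int m hm (fun u => ‖SX lam X (1 / 2 + (u : ℂ) * Complex.I)‖) t
  rw [hkk] at hbd1
  obtain ⟨hz, hfin⟩ := direct_fin hm hr0 hsup lam
  set F1 : ℝ → ℂ := fun x => (∑ n ∈ Finset.Icc 1 X, ac m lam n * ψ (Real.exp (x - ll m n))) *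
    ((gs (x - -(a0 : ℝ)) - gs (x - -(a0 : ℝ) - ((b + a0 : ℕ) : ℝ)) : ℝ) : ℂ) * ex σ m t x with hF1
  set F2 : ℝ → ℂ := fun x => thA m ψ lam (Real.exp x) * ((gs (x - b) : ℝ) : ℂ) * ex σ m t x
    with hF2
  have hsub : ∀ x, thA m ψ lam (Real.exp x) * ex σ m t x - F1 x = F2 x := by
    intro x
    have e1 : x - -(a0 : ℝ) - ((b + a0 : ℕ) : ℝ) = x - b := by push_cast; ring
    have e2 : x - -(a0 : ℝ) = x + a0 := by ring
    simp only [hF1, hF2]
    rw [e1, e2]
    by_cases h1 : x < -lr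
    · have h2 := hz x h1
      have h3 : gs (x + a0) - gs (x - b) = 0 ∨
          ∑ n ∈ Finset.Icc 1 X, ac m lam n * ψ (Real.exp (x - ll m n)) = 0 := by
        right
        rw [← hfin X 0 ?_ x (by linarith), h2]
        refine le_trans ?_ hXl
        rw [zero_add]
        calc Real.exp (m * Real.log r0) ≤ Real.exp (m * (2 + lr)) :=
              Real.exp_le_exp.2 (mul_le_mul_of_nonneg_left (by linarith) (by positivity))
          _ = 1 * 1 * Real.exp (m * (2 + lr)) := by ring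
          _ ≤ _ := by
            refine mul_le_mul_of_nonneg_right ?_ (Real.exp_pos _).le
            exact mul_le_mul (Real.one_le_exp (by positivity)) (Real.one_le_exp (by positivity))
              zero_le_one (Real.exp_pos _).le
      rw [h2]
      rcases h3 with h3 | h3
      · rw [h3]; simp
      · rw [h3]; simp
    · have h2 : gs (x + a0) = 1 := gs_one (by linarith)
      rw [h2]
      by_cases h3 : x ≤ b + 1
      · rw [← hfin X (b + 1) ?_ x h3]
        · push_cast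
          ring
        · refine le_trans ?_ hXl
          rw [← Real.exp_add, ← Real.exp_add, Real.exp_le_exp, ← hlrd]
          have h4 : (m : ℝ) * b ≤ m * (Λ / 2 + 1) :=
            mul_le_mul_of_nonneg_left hb2.le (by positivity)
          have h5 : 0 ≤ ε * Λ := by positivity
          linarith
      · have h4 : gs (x - b) = 1 := gs_one (by linarith)
        rw [h4]
        simp
  have hi2 : Integrable F2 := by
    refine (hF.sub hi1).congr (Filter.Eventually.of_forall fun x => ?_)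
    exact hsub x
  have hsplit : ∫ x, thA m ψ lam (Real.exp x) * ex σ m t x = (∫ x, F1 x) + ∫ x, F2 x := by
    have h1 : ∫ x, F2 x = (∫ x, thA m ψ lam (Real.exp x) * ex σ m t x) - ∫ x, F1 x := by
      rw [← integral_sub hF hi1]
      exact integral_congr_ae (Filter.Eventually.of_forall fun x => (hsub x).symm)
    rw [h1]
    ring
  -- the dual part
  set c : ℝ := L - b with hc
  set Dd : ℝ → ℂ := fun y => thA m ψ' lam (Real.exp y) * ((gs (c - y) : ℝ) : ℂ) * ex σ m t y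
    with hDd
  set u : ℂ := Complex.exp (((-(m * t * L) : ℝ) : ℂ) * Complex.I) with hu
  have hun : ‖u‖ = 1 := exp_norm _
  have hFD : ∀ y, F2 (L - y) = u * (starRingEnd ℂ) (Dd y) := by
    intro y
    have hpos := Real.exp_pos (L - y)
    have h1 := hFE (Real.exp (L - y)) hpos
    have h2 : N ^ (1 / (m : ℝ)) / Real.exp (L - y) = Real.exp y := by
      have h3 : N ^ (1 / (m : ℝ)) = Real.exp L := by
        rw [Real.rpow_def_of_pos hN0, hL]
        congr 1
        ring
      rw [h3, ← Real.exp_sub]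
      congr 1
      ring
    rw [h2] at h1
    simp only [hF2, hDd]
    rw [h1]
    have e1 : L - y - b = c - y := by rw [hc]; ring
    rw [e1]
    have h4 : (((Real.exp (L - y) ^ (m ^ 2) * N ^ (-((m : ℝ) / 2)) : ℝ)) : ℂ) * ex σ m t (L - y) =
        u * (starRingEnd ℂ) (ex σ m t y) := by
      have h5 : Real.exp (L - y) ^ (m ^ 2) * N ^ (-((m : ℝ) / 2)) =
          Real.exp ((m : ℝ) ^ 2 * (L - y) - (m : ℝ) ^ 2 / 2 * L) := by
        rw [← Real.exp_nat_mul, ← hNe, ← Real.exp_mul, ← Real.exp_add]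
        congr 1
        push_cast
        ring
      rw [h5, hu]
      unfold ex
      rw [← Complex.exp_conj, Complex.ofReal_exp, ← Complex.exp_add, ← Complex.exp_add]
      congr 1
      rw [map_add, map_mul, Complex.conj_ofReal, Complex.conj_ofReal, Complex.conj_I, hσ]
      push_cast
      ring
    rw [map_mul, map_mul, Complex.conj_ofReal]
    calc _ = (starRingEnd ℂ) (thA m ψ' lam (Real.exp y)) * ((gs (c - y) : ℝ) : ℂ) *
          ((((Real.exp (L - y) ^ (m ^ 2) * N ^ (-((m : ℝ) / 2)) : ℝ)) : ℂ) *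
            ex σ m t (L - y)) := by ring
      _ = _ := by rw [h4]; ring
  have hiD : Integrable Dd := by
    have h1 : Integrable fun y => F2 (L - y) := hi2.comp_sub_left L
    have h2 : Integrable fun y => (starRingEnd ℂ) (Dd y) := by
      have h3 : Integrable fun y => u⁻¹ * F2 (L - y) := h1.const_mul _
      refine h3.congr (Filter.Eventually.of_forall fun y => ?_)
      simp only []
      rw [hFD y, ← mul_assoc, inv_mul_cancel₀, one_mul]
      intro h
      rw [h, norm_zero] at hun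
      exact zero_ne_one hun
    have h4 : Integrable fun y => (starRingEnd ℂ) ((starRingEnd ℂ) (Dd y)) :=
      (Complex.conjLIE.toContinuousLinearEquiv.toContinuousLinearMap).integrable_comp h2
    refine h4.congr (Filter.Eventually.of_forall fun y => ?_)
    exact Complex.conj_conj _
  have hnD : ‖∫ x, F2 x‖ = ‖∫ y, Dd y‖ := by
    rw [← integral_sub_left_eq_self F2 volume L]
    simp only [hFD]
    rw [integral_const_mul, norm_mul, hun, one_mul, integral_conj, RCLike.norm_conj]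
  have hdual := dual_part hm K1 J2 (c := c) hB hM hd hψ' hdec hlam hMe' X hX1 t hiD
  rw [← hI0] at hdual hbd1
  set K : ℕ := m * (m + 2 + K1) with hK
  have hKr : (K : ℝ) = m * (m + 2 + K1) := by rw [hK]; push_cast; ring
  have hK1r : (0 : ℝ) ≤ K1 := Nat.cast_nonneg K1
  have hdK : d⁻¹ ^ K = Real.exp (K * Dl) := by
    rw [Real.exp_nat_mul, hde]
  have hcb : c ≤ (L - Dl) / 2 := by rw [hc]; linarith
  have hσ0 : 0 < σ := by positivity
  have hKσ : 0 ≤ (K : ℝ) - σ := by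
    have h1 : (K : ℝ) - σ = (m : ℝ) ^ 2 / 2 + 2 * m + m * K1 := by rw [hKr, hσ]; ring
    rw [h1]
    positivity
  have hE1 : d⁻¹ ^ K * ((X : ℝ) ^ K1)⁻¹ * Real.exp (((K : ℝ) - (m : ℝ) ^ 2 / 2) * c) ≤ 1 := by
    have h1 : ((X : ℝ) ^ K1)⁻¹ ≤ Real.exp (-(K1 * (m * Λ / 2 + ε * Λ))) := by
      rw [Real.exp_neg, Real.exp_nat_mul]
      refine inv_anti₀ (by positivity) (pow_le_pow_left₀ (Real.exp_pos _).le ?_ _)
      refine le_trans ?_ hXl
      rw [Real.exp_add]
      refine le_mul_of_one_le_right (by positivity) (Real.one_le_exp (by positivity))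
    rw [hdK, ← hσ]
    calc Real.exp (K * Dl) * ((X : ℝ) ^ K1)⁻¹ * Real.exp (((K : ℝ) - σ) * c) ≤
          Real.exp (K * Dl) * Real.exp (-(K1 * (m * Λ / 2 + ε * Λ))) *
            Real.exp (((K : ℝ) - σ) * ((L - Dl) / 2)) := by
          refine mul_le_mul (mul_le_mul_of_nonneg_left h1 (Real.exp_pos _).le) ?_
            (Real.exp_pos _).le (by positivity)
          exact Real.exp_le_exp.2 (mul_le_mul_of_nonneg_left hcb hKσ)
      _ = Real.exp (K * Dl + -(K1 * (m * Λ / 2 + ε * Λ)) + ((K : ℝ) - σ) * ((L - Dl) / 2)) := by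
          rw [Real.exp_add, Real.exp_add]
      _ ≤ 1 := by
          rw [Real.exp_le_one_iff]
          have h2 : (m : ℝ) * (m + 2) + (m : ℝ) ^ 2 ≤ K1 * ε := by
            rwa [div_le_iff₀ hε] at hK1
          have h3 : K * Dl + -(K1 * (m * Λ / 2 + ε * Λ)) + ((K : ℝ) - σ) * ((L - Dl) / 2) =
              ((m : ℝ) * (m + 2) / 2 - K1 * ε) * Λ - σ * (L - Dl) / 2 := by
            rw [hKr, hΛ]
            ring
          rw [h3]
          have h4 : -(σ * (L - Dl) / 2) ≤ σ * Λ / 2 := by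
            rw [hΛ]
            linarith [mul_nonneg hσ0.le hL0]
          have h5 : ((m : ℝ) * (m + 2) / 2 - K1 * ε) * Λ ≤
              ((m : ℝ) * (m + 2) / 2 - ((m : ℝ) * (m + 2) + (m : ℝ) ^ 2)) * Λ :=
            mul_le_mul_of_nonneg_right (by linarith) hΛ0.le
          have h6 : ((m : ℝ) * (m + 2) / 2 - ((m : ℝ) * (m + 2) + (m : ℝ) ^ 2)) * Λ +
              σ * Λ / 2 ≤ 0 := by
            have h7 : ((m : ℝ) * (m + 2) / 2 - ((m : ℝ) * (m + 2) + (m : ℝ) ^ 2)) * Λ +
              σ * Λ / 2 = -(((m : ℝ) * (m + 2) / 2 + 3 / 4 * (m : ℝ) ^ 2) * Λ) := by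
              rw [hσ]; ring
            rw [h7, neg_nonpos]
            positivity
          linarith
  have hE2 : d⁻¹ ^ K * Real.exp (((K : ℝ) - (m : ℝ) ^ 2 / 2) * (c - J2)) ≤ 1 := by
    rw [hdK, ← hσ, ← Real.exp_add, Real.exp_le_one_iff]
    have h1 : c - J2 ≤ -(2 * Dl) := by
      rw [hΛ] at hj1
      linarith
    have h2 : ((K : ℝ) - σ) * (c - J2) ≤ ((K : ℝ) - σ) * (-(2 * Dl)) :=
      mul_le_mul_of_nonneg_left h1 hKσ
    have h3 : K * Dl + ((K : ℝ) - σ) * (-(2 * Dl)) = -(((K : ℝ) - 2 * σ) * Dl) := by ring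
    have h4 : 0 ≤ (K : ℝ) - 2 * σ := by
      have h6 : (K : ℝ) - 2 * σ = 2 * m + m * K1 := by rw [hKr, hσ]; ring
      rw [h6]
      positivity
    have h5 : 0 ≤ ((K : ℝ) - 2 * σ) * Dl := mul_nonneg h4 hDl0.le
    linarith
  rw [hsplit]
  refine (norm_add_le _ _).trans ?_
  rw [hnD]
  have hP : 0 ≤ (N / d) ^ ε := by linarith
  have hj : ((b + a0 : ℕ) : ℝ) + J2 ≤ (3 / ε + 2 + a0) * (N / d) ^ ε := by
    push_cast
    have h1 : (b : ℝ) + a0 + J2 ≤ 5 / 2 * Λ + 2 + a0 := by linarith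
    have h2 : 5 / 2 * Λ ≤ 3 / ε * (N / d) ^ ε := by
      have h3 : 3 / ε * (N / d) ^ ε = 3 * ((N / d) ^ ε / ε) := by ring
      rw [h3]
      linarith
    have h4 : (2 + (a0 : ℝ)) ≤ (2 + a0) * (N / d) ^ ε := le_mul_of_one_le_right (by positivity) hpow1
    have h5 : (3 / ε + 2 + a0) * (N / d) ^ ε = 3 / ε * (N / d) ^ ε + (2 + a0) * (N / d) ^ ε := by
      ring
    rw [h5]
    linarith
  have herr : B * M * S0 * (d⁻¹ ^ K * ((X : ℝ) ^ K1)⁻¹ *
        Real.exp (((K : ℝ) - (m : ℝ) ^ 2 / 2) * c) +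
        d⁻¹ ^ K * Real.exp (((K : ℝ) - (m : ℝ) ^ 2 / 2) * (c - J2))) ≤ 2 * (B * S0) * M := by
    calc _ ≤ B * M * S0 * (1 + 1) :=
          mul_le_mul_of_nonneg_left (add_le_add hE1 hE2) (by positivity)
      _ = _ := by ring
  have hMI : 0 ≤ M * I0 := mul_nonneg hM hI00
  have hfinal : ‖∫ x, F1 x‖ + ‖∫ y, Dd y‖ ≤
      (((b + a0 : ℕ) : ℝ) + J2) * (M * I0) + 2 * (B * S0) * M := by
    have h1 := hbd1
    have h2 := hdual
    calc ‖∫ x, F1 x‖ + ‖∫ y, Dd y‖ ≤ ((b + a0 : ℕ) : ℝ) * M * I0 + (J2 * M * I0 +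
          2 * (B * S0) * M) := add_le_add h1 (h2.trans (add_le_add le_rfl herr))
      _ = _ := by ring
  refine hfinal.trans ?_
  have h7 : (((b + a0 : ℕ) : ℝ) + J2) * (M * I0) ≤
      ((3 / ε + 2 + a0) * (N / d) ^ ε) * (M * I0) := mul_le_mul_of_nonneg_right hj hMI
  have h8 : 2 * (B * S0) * M ≤ 2 * (B * S0) * M * (N / d) ^ ε :=
    le_mul_of_one_le_right (by positivity) hpow1
  have h9 : C * M * (N / d) ^ ε * (1 + I0) = ((3 / ε + 2 + a0) * (N / d) ^ ε) * (M * I0) +
      2 * (B * S0) * M * (N / d) ^ ε + (Real.exp (m * (2 + lr)) * (M * (N / d) ^ ε) * (1 + I0) +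
        (3 / ε + 2 + a0) * (M * (N / d) ^ ε) + 2 * (B * S0) * (M * (N / d) ^ ε) * I0) := by
    rw [hC]
    ring
  have h10 : 0 ≤ (Real.exp (m * (2 + lr)) * (M * (N / d) ^ ε) * (1 + I0) +
        (3 / ε + 2 + a0) * (M * (N / d) ^ ε) + 2 * (B * S0) * (M * (N / d) ^ ε) * I0) := by
    positivity
  rw [h9]
  linarith

end Pool.Agent.H23.GB
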