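import Pool.Agent.H23.GB.TargetsA

/-!
Board gb, preparations for the approximate functional equation: cut-off functions and their Fourier
transforms.
-/

namespace Pool.Agent.H23.GB

open MeasureTheory Real FourierTransform SchwartzMap

namespace AF

/-- the smooth step -/
noncomputable def gs (x : ℝ) : ℝ := Real.smoothTransition x

lemma gs_nn (x : ℝ) : 0 ≤ gs x := Real.smoothTransition.nonneg x
lemma gs_le (x : ℝ) : gs x ≤ 1 := Real.smoothTransition.le_one x
lemma gs_zero {x : ℝ} (h : x ≤ 0) : gs x = 0 := Real.smoothTransition.zero_of_nonpos h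
lemma gs_one {x : ℝ} (h : 1 ≤ x) : gs x = 1 := Real.smoothTransition.one_of_one_le h
lemma gs_cont : Continuous gs := Real.smoothTransition.continuous

/-- one smooth piece -/
noncomputable def wt (x : ℝ) : ℂ := ((gs x - gs (x - 1) : ℝ) : ℂ)

lemma wt_cs : HasCompactSupport wt := by
  refine HasCompactSupport.of_support_subset_isCompact (K := Set.Icc 0 2) isCompact_Icc ?_
  intro x hx
  rw [Function.mem_support] at hx
  by_contra h
  apply hx
  rw [Set.mem_Icc, not_and_or, not_le, not_le] at h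
  unfold wt
  rcases h with h | h
  · rw [gs_zero h.le, gs_zero (by linarith)]
    simp
  · rw [gs_one (by linarith), gs_one (by linarith)]
    simp

lemma wt_sm : ContDiff ℝ ((⊤ : ℕ∞) : WithTop ℕ∞) wt := by
  unfold wt gs
  refine Complex.ofRealCLM.contDiff.comp ?_
  refine Real.smoothTransition.contDiff.sub ?_
  exact Real.smoothTransition.contDiff.comp (contDiff_id.sub contDiff_const)

/-- as a Schwartz function -/
noncomputable def wS : 𝓢(ℝ, ℂ) := wt_cs.toSchwartzMap wt_sm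

/-- its Fourier transform -/
noncomputable def wh : 𝓢(ℝ, ℂ) := 𝓕 wS

lemma wt_eq (x : ℝ) : wt x = ∫ ξ : ℝ, Complex.exp (2 * π * ξ * x * Complex.I) * wh ξ := by
  have h1 : 𝓕⁻ (wh) = wS := by
    unfold wh
    exact FourierTransform.fourierInv_fourier_eq wS
  have h2 : wt x = (𝓕⁻ wh : 𝓢(ℝ, ℂ)) x := by
    rw [h1]
    rfl
  rw [h2, SchwartzMap.fourierInv_coe, Real.fourierInv_eq']
  refine integral_congr_ae (Filter.Eventually.of_forall fun ξ => ?_)
  simp only [smul_eq_mul]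
  congr 2
  have h5 : inner ℝ ξ x = ξ * x := by
    rw [real_inner_eq_re_inner]
    simp [mul_comm]
  rw [h5]
  push_cast
  ring

/-- the basic kernel -/
noncomputable def k0 (ξ : ℝ) : ℝ := ‖wh ξ‖ + ‖wh (-ξ)‖

lemma k0_cont : Continuous k0 := by
  unfold k0
  exact (wh.continuous.norm).add ((wh.continuous.comp continuous_neg).norm)

lemma k0_nn (ξ : ℝ) : 0 ≤ k0 ξ := add_nonneg (norm_nonneg _) (norm_nonneg _)

lemma k0_neg (ξ : ℝ) : k0 (-ξ) = k0 ξ := by
  unfold k0
  rw [neg_neg, add_comm]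

lemma wh_dec (K : ℕ) : ∃ C : ℝ, 0 < C ∧ ∀ ξ : ℝ, ‖wh ξ‖ ≤ C * (1 + |ξ|) ^ (-(K : ℝ)) := by
  obtain ⟨C0, hC0, h0⟩ := wh.decay 0 0
  obtain ⟨C1, hC1, h1⟩ := wh.decay K 0
  refine ⟨2 ^ K * (C0 + C1), by positivity, fun ξ => ?_⟩
  have ha := h0 ξ
  have hb := h1 ξ
  rw [norm_iteratedFDeriv_zero, pow_zero, one_mul] at ha
  rw [norm_iteratedFDeriv_zero, Real.norm_eq_abs] at hb
  have hp : 0 < 1 + |ξ| := by positivity
  rw [Real.rpow_neg hp.le, Real.rpow_natCast, ← div_eq_mul_inv, le_div_iff₀ (by positivity)]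
  have h2 : (1 + |ξ|) ^ K ≤ 2 ^ K * (1 + |ξ| ^ K) := by
    rcases le_total |ξ| 1 with h | h
    · calc (1 + |ξ|) ^ K ≤ 2 ^ K := pow_le_pow_left₀ hp.le (by linarith) K
        _ = 2 ^ K * 1 := (mul_one _).symm
        _ ≤ _ := by
          refine mul_le_mul_of_nonneg_left ?_ (by positivity)
          have : 0 ≤ |ξ| ^ K := by positivity
          linarith
    · calc (1 + |ξ|) ^ K ≤ (2 * |ξ|) ^ K := pow_le_pow_left₀ hp.le (by linarith) K
        _ = 2 ^ K * |ξ| ^ K := mul_pow _ _ _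
        _ ≤ _ := by
          refine mul_le_mul_of_nonneg_left ?_ (by positivity)
          linarith
  calc ‖wh ξ‖ * (1 + |ξ|) ^ K ≤ ‖wh ξ‖ * (2 ^ K * (1 + |ξ| ^ K)) :=
        mul_le_mul_of_nonneg_left h2 (norm_nonneg _)
    _ = 2 ^ K * (‖wh ξ‖ + |ξ| ^ K * ‖wh ξ‖) := by ring
    _ ≤ 2 ^ K * (C0 + C1) := mul_le_mul_of_nonneg_left (add_le_add ha hb) (by positivity)

lemma wh_int : Integrable fun ξ : ℝ => wh ξ := wh.integrable

lemma k0_int : Integrable k0 := by
  unfold k0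
  exact wh_int.norm.add (wh_int.comp_neg.norm)

lemma k0_dec (K : ℕ) : ∃ C : ℝ, 0 < C ∧ ∀ ξ : ℝ, k0 ξ ≤ C * (1 + |ξ|) ^ (-(K : ℝ)) := by
  obtain ⟨C, hC, h⟩ := wh_dec K
  refine ⟨C + C, by positivity, fun ξ => ?_⟩
  unfold k0
  have h1 := h ξ
  have h2 := h (-ξ)
  rw [abs_neg] at h2
  rw [add_mul]
  exact add_le_add h1 h2

/-- a cut-off function together with its Fourier transform -/
structure Cut (G Gh : ℝ → ℂ) (J : ℝ) : Prop where
  cont : Continuous Gh
  bd : ∀ ξ, ‖Gh ξ‖ ≤ J * k0 ξ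
  eq : ∀ x, G x = ∫ ξ : ℝ, Complex.exp (2 * π * ξ * x * Complex.I) * Gh ξ

lemma cut_int {G Gh : ℝ → ℂ} {J : ℝ} (h : Cut G Gh J) : Integrable Gh :=
  Integrable.mono' (k0_int.const_mul J) h.cont.aestronglyMeasurable
    (Filter.Eventually.of_forall h.bd)

lemma exp_norm (a : ℝ) : ‖Complex.exp (a * Complex.I)‖ = 1 := Complex.norm_exp_ofReal_mul_I a

/-- the direct cut-off -/
lemma cut1 (a : ℝ) (J : ℕ) : ∃ Gh : ℝ → ℂ,
    Cut (fun x => ((gs (x - a) - gs (x - a - J) : ℝ) : ℂ)) Gh J ∧ ∀ ξ, ‖Gh ξ‖ ≤ J * ‖wh ξ‖ := by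
  have hn : ∀ ξ : ℝ, ‖(∑ j ∈ Finset.range J,
      Complex.exp (-(2 * π * ξ * (a + j)) * Complex.I)) * wh ξ‖ ≤ J * ‖wh ξ‖ := by
    intro ξ
    rw [norm_mul]
    refine mul_le_mul_of_nonneg_right ?_ (norm_nonneg _)
    refine (norm_sum_le _ _).trans ?_
    have h1 : ∀ j ∈ Finset.range J,
        ‖Complex.exp (-(2 * π * ξ * (a + j)) * Complex.I)‖ ≤ 1 := by
      intro j _
      have : (-(2 * π * ξ * (a + j)) * Complex.I : ℂ) =
          ((-(2 * π * ξ * (a + j)) : ℝ) : ℂ) * Complex.I := by push_cast; ring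
      rw [this, exp_norm]
    refine (Finset.sum_le_sum h1).trans ?_
    simp
  refine ⟨fun ξ => (∑ j ∈ Finset.range J,
      Complex.exp (-(2 * π * ξ * (a + j)) * Complex.I)) * wh ξ, ⟨?_, ?_, ?_⟩, hn⟩
  · refine Continuous.mul ?_ wh.continuous
    fun_prop
  · intro ξ
    refine (hn ξ).trans ?_
    refine mul_le_mul_of_nonneg_left ?_ (Nat.cast_nonneg J)
    unfold k0
    linarith [norm_nonneg (wh (-ξ))]
  · intro x
    have h2 : ∀ J : ℕ, ((gs (x - a) - gs (x - a - J) : ℝ) : ℂ) =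
        ∑ j ∈ Finset.range J, wt (x - (a + j)) := by
      intro J
      induction J with
      | zero => simp
      | succ n ih =>
        rw [Finset.sum_range_succ, ← ih]
        unfold wt
        have h3 : x - (a + n) - 1 = x - a - ((n + 1 : ℕ) : ℝ) := by push_cast; ring
        have h4 : x - (a + n) = x - a - n := by ring
        rw [h3, h4]
        push_cast
        ring
    rw [h2 J]
    have h3 : ∀ j ∈ Finset.range J, Integrable fun ξ : ℝ =>
        Complex.exp (2 * π * ξ * ((x - (a + j) : ℝ) : ℂ) * Complex.I) * wh ξ := by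
      intro j _
      refine Integrable.bdd_mul (c := 1) wh_int ?_ ?_
      · exact (by fun_prop : Continuous fun ξ : ℝ =>
          Complex.exp (2 * π * ξ * ((x - (a + j) : ℝ) : ℂ) * Complex.I)).aestronglyMeasurable
      · refine Filter.Eventually.of_forall fun ξ => ?_
        have : (2 * π * ξ * ((x - (a + j) : ℝ) : ℂ) * Complex.I : ℂ) =
            ((2 * π * ξ * (x - (a + j)) : ℝ) : ℂ) * Complex.I := by push_cast; ring
        rw [this, exp_norm]
    have h6 : ∑ j ∈ Finset.range J, wt (x - (a + j)) = ∑ j ∈ Finset.range J, ∫ ξ : ℝ,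
        Complex.exp (2 * π * ξ * ((x - (a + j) : ℝ) : ℂ) * Complex.I) * wh ξ :=
      Finset.sum_congr rfl fun j _ => wt_eq (x - (a + j))
    rw [h6, ← integral_finsetSum _ h3]
    refine integral_congr_ae (Filter.Eventually.of_forall fun ξ => ?_)
    simp only []
    rw [← mul_assoc, Finset.mul_sum, Finset.sum_mul]
    refine Finset.sum_congr rfl fun j _ => ?_
    rw [← Complex.exp_add]
    congr 2
    push_cast
    ring

/-- the reflected cut-off -/
lemma cut2 (c : ℝ) (J : ℕ) : ∃ Gh : ℝ → ℂ,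
    Cut (fun x => ((gs (c - x) - gs (c - x - J) : ℝ) : ℂ)) Gh J := by
  obtain ⟨Gh, hG, hn⟩ := cut1 0 J
  refine ⟨fun ξ => Complex.exp (-(2 * π * ξ * c) * Complex.I) * Gh (-ξ), ⟨?_, ?_, ?_⟩⟩
  · exact Continuous.mul (by fun_prop) (hG.cont.comp continuous_neg)
  · intro ξ
    rw [norm_mul]
    have : (-(2 * π * ξ * c) * Complex.I : ℂ) = ((-(2 * π * ξ * c) : ℝ) : ℂ) * Complex.I := by
      push_cast; ring
    rw [this, exp_norm, one_mul]
    refine (hG.bd (-ξ)).trans ?_
    rw [k0_neg]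
  · intro x
    have h1 := hG.eq (c - x)
    simp only [sub_zero] at h1
    rw [h1, ← integral_neg_eq_self]
    refine integral_congr_ae (Filter.Eventually.of_forall fun ξ => ?_)
    simp only []
    rw [← mul_assoc, ← Complex.exp_add]
    congr 2
    push_cast
    ring

end AF

end Pool.Agent.H23.GB
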