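import Pool.Agent.H23.GA.Targets

/-!
# Perfect spanning sets of radius 5 and 7: targets of the modules
-/

set_option autoImplicit false

open Finset Polynomial
open scoped Classical

namespace Pool.Agent.H23.GB

open Pool.Agent.H23.GW Pool.Agent.H23.GA

noncomputable section

/-- the set `{0} ∪ A ∪ -A` -/
def tile {G : Type} [AddCommGroup G] (A : Finset G) : Finset G :=
  insert 0 (A ∪ A.image fun a => -a)

/-- number of pairs of words `x ∈ T^a`, `z ∈ T^b` with `∑ x + 3 ∑ z = 0` -/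
def RW {H : Type} [AddCommGroup H] (T : Finset H) (a b : ℕ) : ℕ :=
  #{q ∈ (Fintype.piFinset fun _ : Fin a => T) ×ˢ (Fintype.piFinset fun _ : Fin b => T) |
    ∑ i, q.1 i + 3 • ∑ j, q.2 j = 0}

/-- real part of the character sum -/
def v {G : Type} [AddCommGroup G] (T : Finset G) (χ : AddChar G ℂ) : ℝ := (V T χ).re

/-- what is used about the set `T = {0} ∪ A ∪ -A` of a perfect `s`-spanning set `A` of size `m` -/
structure TileS (s : ℕ) {G : Type} [AddCommGroup G] [Fintype G] (T : Finset G) (m : ℕ) : Prop where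
  zero_mem : (0 : G) ∈ T
  neg_mem : ∀ x ∈ T, -x ∈ T
  card : #T = 2 * m + 1
  cardG : Fintype.card G = aa m s
  odd : Odd (Fintype.card G)
  char : ∀ χ : AddChar G ℂ, χ ≠ 0 → (BP (fun k => v T (k • χ)) s).eval (m : ℝ) = 0
  words : ∀ a b : ℕ, a + 3 * b ≤ 2 * s → RW T a b = RW (ball (Fin m) 1) a b
  mul_inj : ∀ k : ℕ, 1 ≤ k → k ≤ s → Set.InjOn (fun x : G => k • x) (T : Set G)
  r_le : ∀ d, d ≠ 0 → r2 T d ≤ 2
  corr : ∀ d, d ≠ 0 → ∑ g, r2 T g * r2 T (g + d) ≤ 24 * m + 12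

/-- what is used in the final part of the proof -/
structure TileA {G : Type} [AddCommGroup G] [Fintype G] (T : Finset G) (m : ℕ) (K κ : ℝ) :
    Prop where
  card : #T = 2 * m + 1
  r_le : ∀ d, d ≠ 0 → r2 T d ≤ 2
  corr : ∀ d, d ≠ 0 → ∑ g, (r2 T g : ℝ) * r2 T (g + d) ≤ K * m
  sb : ∀ H : AddSubgroup G, ∑ h with h ∈ H, (r2 T h : ℝ) ≤
    (2 * m + 1) ^ 2 * Nat.card H / Fintype.card G + K * m
  ma : ∀ Γ : Subgroup (ZMod (Fintype.card G))ˣ, κ * (2 * m + 1) ^ 2 * Nat.card Γ ≤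
    ∑ t with t ∈ Γ, ∑ g, (r2 T g : ℝ) * r2 T ((t : ZMod (Fintype.card G)).val • g)

/-- (T1) the tile of a perfect spanning set. -/
def T_T1 : Prop :=
  ∀ (G : Type) [AddCommGroup G] [Fintype G] (A : Finset G) (s : ℕ), 2 ≤ s → PerfectSpanning A s →
    (∀ x ∈ tile A, -x ∈ tile A) ∧ #(tile A) = 2 * #A + 1 ∧ Fintype.card G = aa #A s ∧
    Odd (Fintype.card G) ∧
    ∀ χ : AddChar G ℂ, χ ≠ 0 → (BP (fun k => v (tile A) (k • χ)) s).eval (#A : ℝ) = 0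

/-- (T2) relations of weight at most `2 s` are formal relations. -/
def T_T2 : Prop :=
  ∀ (G : Type) [AddCommGroup G] [Fintype G] (A : Finset G) (s : ℕ), 2 ≤ s → PerfectSpanning A s →
    (∀ a b : ℕ, a + 3 * b ≤ 2 * s → RW (tile A) a b = RW (ball (Fin #A) 1) a b) ∧
    (∀ k : ℕ, 1 ≤ k → k ≤ s → Set.InjOn (fun x : G => k • x) (tile A : Set G))

/-- (T3) representations as sums of two and differences of sums of two. -/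
def T_T3 : Prop :=
  ∀ (G : Type) [AddCommGroup G] [Fintype G] (A : Finset G) (s : ℕ), 4 ≤ s → PerfectSpanning A s →
    (∀ d, d ≠ 0 → r2 (tile A) d ≤ 2) ∧
    (∀ d, d ≠ 0 → ∑ g, r2 (tile A) g * r2 (tile A) (g + d) ≤ 24 * #A + 12)

/-- (FM) asymptotics of the numbers of formal relations. -/
def T_FM : Prop :=
  ∃ C : ℝ, ∀ m : ℕ, 1 ≤ m →
    |(RW (ball (Fin m) 1) 2 0 : ℝ) - 2 * m| ≤ C ∧
    |(RW (ball (Fin m) 1) 4 0 : ℝ) - 12 * m ^ 2| ≤ C * m ∧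
    |(RW (ball (Fin m) 1) 6 0 : ℝ) - 120 * m ^ 3| ≤ C * m ^ 2 ∧
    |(RW (ball (Fin m) 1) 0 2 : ℝ) - 2 * m| ≤ C ∧
    |(RW (ball (Fin m) 1) 2 2 : ℝ) - 4 * m ^ 2| ≤ C * m ∧
    |(RW (ball (Fin m) 1) 4 2 : ℝ) - 24 * m ^ 3| ≤ C * m ^ 2 ∧
    |(RW (ball (Fin m) 1) 6 2 : ℝ) - 240 * m ^ 4| ≤ C * m ^ 3

/-- (MO) moments of character sums. -/
def T_MO : Prop :=
  ∀ (G : Type) [AddCommGroup G] [Fintype G] (T : Finset G), (∀ x ∈ T, -x ∈ T) →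
    (∀ χ : AddChar G ℂ, (V T χ).im = 0) ∧
    ∀ a b : ℕ, ∑ χ : AddChar G ℂ, v T χ ^ a * v T (3 • χ) ^ b = (Fintype.card G : ℝ) * RW T a b

/-- (AA) growth of the balls. -/
def T_AA : Prop :=
  (∀ s : ℕ, 5 ≤ s → ∃ c : ℝ, 0 < c ∧ ∀ m : ℕ, c * m ^ 5 ≤ aa m s) ∧
  ∀ s m : ℕ, aa m s ≤ (2 * m + 1) ^ s

/-- (SR) square root bound. -/
def T_SR : Prop :=
  ∀ s : ℕ, 1 ≤ s → ∃ K : ℝ, 0 < K ∧ ∀ (X : Type) [AddCommGroup X] [Finite X] (u : X → ℝ) (m : ℝ),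
    1 ≤ m → u 0 = 2 * m + 1 → (∀ χ : X, χ ≠ 0 → (BP (fun k => u (k • χ)) s).eval m = 0) →
    ∀ χ : X, χ ≠ 0 → |u χ| ≤ K * √m

/-- the dichotomy for radius `s` -/
def DS (s : ℕ) (q : ℝ → ℝ) (ν : ℝ) : Prop :=
  ∀ K₀ : ℝ, 0 < K₀ → ∃ (K : ℝ) (m₀ : ℕ), 0 < K ∧ ∀ m : ℝ, m₀ ≤ m → ∀ u : ℕ → ℝ,
    |u 1| ≤ K₀ * √m → |u 2| ≤ K₀ * √m → (∀ k : ℕ, 3 ≤ k → k ≤ s → |u k| ≤ 3 * m) →
    (BP u s).eval m = 0 →
    (ν * m ≤ u 1 ^ 2 → |q (u 1 ^ 2 / m) - 1| ≤ K / √m) ∧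
    (u 1 ^ 2 < ν * m → |u 1| ≤ K * (|u 3| / m + |u 5| / m ^ 2 + 1 / m ^ 2))

/-- (D5) the dichotomy for radius 5. -/
def T_D5 : Prop := DS 5 (fun y => (20 * y - y ^ 2) / 60) (18 / 5)

/-- (D7) the dichotomy for radius 7. -/
def T_D7 : Prop := DS 7 (fun y => (y ^ 3 - 42 * y ^ 2 + 420 * y) / 840) (53 / 20)

/-- (ZC) counting the characters with small character sums. -/
def T_ZC : Prop :=
  ∀ (s : ℕ) (α β γ ν : ℝ), 5 ≤ s → (γ = 0 ∨ 6 ≤ s) → 0 < ν →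
    DS s (fun y => α * y + β * y ^ 2 + γ * y ^ 3) ν →
    ∀ η : ℝ, 0 < η → ∃ m₀ : ℕ, ∀ m : ℕ, m₀ ≤ m → ∀ (G : Type) [AddCommGroup G] [Fintype G]
      (T : Finset G), TileS s T m →
      (#{χ : AddChar G ℂ | χ ≠ 0 ∧ ν * m ≤ v T χ ^ 2} : ℝ) ≤
        (2 * α + 12 * β + 120 * γ + η) * Fintype.card G ∧
      ((1 - (2 * α + 12 * β + 120 * γ)) * (1 - 2 / ν) - η) * Fintype.card G ≤
        #{χ : AddChar G ℂ | χ ≠ 0 ∧ v T χ ^ 2 < ν * m ∧ 3 • χ ≠ 0 ∧ v T (3 • χ) ^ 2 < ν * m}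

/-- (ZB) a positive proportion of the character sums vanish. -/
def T_ZB : Prop :=
  ∀ (s : ℕ) (q : ℝ → ℝ) (ν w P : ℝ), 5 ≤ s → 0 < ν → DS s q ν → 51 / 100 < w + P / 2 →
    (∀ η : ℝ, 0 < η → ∃ m₀ : ℕ, ∀ m : ℕ, m₀ ≤ m → ∀ (G : Type) [AddCommGroup G] [Fintype G]
      (T : Finset G), TileS s T m →
      (#{χ : AddChar G ℂ | χ ≠ 0 ∧ ν * m ≤ v T χ ^ 2} : ℝ) ≤ (1 - w + η) * Fintype.card G ∧
      (P - η) * Fintype.card G ≤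
        #{χ : AddChar G ℂ | χ ≠ 0 ∧ v T χ ^ 2 < ν * m ∧ 3 • χ ≠ 0 ∧ v T (3 • χ) ^ 2 < ν * m}) →
    ∃ m₀ : ℕ, ∀ m : ℕ, m₀ ≤ m → ∀ (G : Type) [AddCommGroup G] [Fintype G]
      (T : Finset G), TileS s T m →
      (Fintype.card G : ℝ) ≤ 100 * #{χ : AddChar G ℂ | V T χ = 0}

/-- (CS) vanishing character sums and fourth moments. -/
def T_CS : Prop :=
  ∀ (G : Type) [AddCommGroup G] [Fintype G] (T : Finset G) (m : ℕ) (z : ℝ),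
    (∀ x ∈ T, -x ∈ T) → #T = 2 * m + 1 → 0 ≤ z → z < 1 →
    z * Fintype.card G ≤ #{χ : AddChar G ℂ | V T χ = 0} →
    ∀ Γ : Subgroup (ZMod (Fintype.card G))ˣ, 1 / (1 - z) * (2 * m + 1) ^ 2 * Nat.card Γ ≤
      ∑ t with t ∈ Γ, ∑ g, (r2 T g : ℝ) * r2 T ((t : ZMod (Fintype.card G)).val • g)

/-- (SG) the pairs with sum in a subgroup. -/
def T_SG : Prop :=
  ∀ (G : Type) [AddCommGroup G] [Fintype G] (T : Finset G) (m : ℕ) (K : ℝ), 0 ≤ K →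
    (∀ x ∈ T, -x ∈ T) → #T = 2 * m + 1 → (∀ χ : AddChar G ℂ, χ ≠ 0 → ‖V T χ‖ ≤ K * √m) →
    ∀ H : AddSubgroup G, ∑ h with h ∈ H, (r2 T h : ℝ) ≤
      (2 * m + 1) ^ 2 * Nat.card H / Fintype.card G + K ^ 2 * m

/-- (GG) the primary components of the group. -/
def T_GG : Prop :=
  ∀ K κ : ℝ, 0 < K → 1 < κ → ∃ C m₀ : ℕ, ∀ m : ℕ, m₀ ≤ m → ∀ (G : Type) [AddCommGroup G] [Fintype G]
    (T : Finset G), TileA T m K κ → ∀ p : ℕ, p.Prime → p ∣ Fintype.card G → C ≤ p →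
      p * m ≤ C * p ^ (Fintype.card G).factorization p

/-- (EG) the exponent of the group. -/
def T_EG : Prop :=
  ∀ K κ δ : ℝ, ∀ s : ℕ, 0 < K → 1 < κ → 0 < δ → ∃ m₀ : ℕ, ∀ m : ℕ, m₀ ≤ m →
    ∀ (G : Type) [AddCommGroup G] [Fintype G] (T : Finset G), TileA T m K κ →
      m ^ 3 ≤ Fintype.card G → Fintype.card G ≤ (2 * m + 1) ^ s →
      (AddMonoid.exponent G : ℝ) < (m : ℝ) ^ (1 + δ)

/-- (AG) arithmetic of the balls. -/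
def T_AG : Prop :=
  ∀ s : ℕ, (s = 5 ∨ s = 7) → ∃ C : ℕ, ∀ m p : ℕ, p.Prime → C ≤ p → p ∣ 2 * m + 1 →
    p ∣ aa m s ∧ (aa m s).factorization p = (2 * m + 1).factorization p

end

end Pool.Agent.H23.GB
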