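import Pool.Agent.H23.GB.Targets

/-!
# Perfect spanning sets of radius 9: targets of the modules
-/

set_option autoImplicit false

open Finset Polynomial
open scoped Classical Nat

namespace Pool.Agent.H23.GB

open Pool.Agent.H23.GW Pool.Agent.H23.GA

noncomputable section

/-- (F9) asymptotics of all numbers of formal relations (Gaussian moments of variance `2 m`). -/
def T_F9 : Prop :=
  ∀ α β : ℕ, 1 ≤ α + β → ∃ C : ℝ, ∀ m : ℕ, 1 ≤ m →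
    |(RW (ball (Fin m) 1) (2 * α) (2 * β) : ℝ) -
      ((2 * α - 1)‼ * (2 * β - 1)‼ * 2 ^ (α + β) : ℕ) * (m : ℝ) ^ (α + β)| ≤
      C * (m : ℝ) ^ (α + β - 1)

/-- (A9) growth of the balls of radius 9 and arithmetic. -/
def T_A9 : Prop :=
  (∃ c : ℝ, 0 < c ∧ ∀ m : ℕ, c * m ^ 6 ≤ aa m 9) ∧
  ∃ C : ℕ, ∀ m p : ℕ, p.Prime → C ≤ p → p ∣ 2 * m + 1 →
    p ∣ aa m 9 ∧ (aa m 9).factorization p = (2 * m + 1).factorization p

/-- the polynomial equal to one at the nonzero nodes of radius 9 and to zero at zero -/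
def q9 (y : ℝ) : ℝ := (10080 * y - 1512 * y ^ 2 + 72 * y ^ 3 - y ^ 4) / 15120

/-- (D9) the dichotomy for radius 9. -/
def T_D9 : Prop := DS 9 q9 2

/-- the certificate for radius 9 -/
def F9 (x y : ℝ) : ℝ :=
  (9980000 - 6421146 * y + 842348 * y ^ 2 - 26938 * y ^ 3
    - 6666667 * x + 3927884 * x * y - 355447 * x * y ^ 2
    + 1000000 * x ^ 2 - 575177 * x ^ 2 * y + 46629 * x ^ 2 * y ^ 2
    - 47619 * x ^ 3 + 25862 * x ^ 3 * y - 1491 * x ^ 3 * y ^ 2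
    + 661 * x ^ 4 - 316 * x ^ 4 * y) / 10 ^ 7

/-- (N9) the values of the certificate near pairs of nodes. -/
def T_N9 : Prop :=
  ∀ B : ℝ, ∃ ε : ℝ, 0 < ε ∧ ∀ x y : ℝ, 0 ≤ x → 0 ≤ y → x ≤ B → y ≤ B →
    (x ≤ ε ∨ (2 ≤ x ∧ |q9 x - 1| ≤ ε)) → (y ≤ ε ∨ (2 ≤ y ∧ |q9 y - 1| ≤ ε)) →
    F9 x y ≤ 1 ∧ ((2 ≤ x ∨ 2 ≤ y) → F9 x y ≤ 0)

/-- (C9) counting the characters with small character sums, radius 9. -/
def T_C9 : Prop :=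
  DS 9 q9 2 → ∀ η : ℝ, 0 < η → ∃ m₀ : ℕ, ∀ m : ℕ, m₀ ≤ m →
    ∀ (G : Type) [AddCommGroup G] [Fintype G] (T : Finset G), TileS 9 T m →
      (#{χ : AddChar G ℂ | χ ≠ 0 ∧ 2 * (m : ℝ) ≤ v T χ ^ 2} : ℝ) ≤
        (1 - 128 / 315 + η) * Fintype.card G ∧
      (23 / 200 - η) * Fintype.card G ≤
        #{χ : AddChar G ℂ | χ ≠ 0 ∧ v T χ ^ 2 < 2 * m ∧ 3 • χ ≠ 0 ∧ v T (3 • χ) ^ 2 < 2 * m}

/-- (B9) a positive proportion of the character sums vanish, radius at least 9. -/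
def T_B9 : Prop :=
  ∀ (s : ℕ) (q : ℝ → ℝ) (ν w P : ℝ), 9 ≤ s → 0 < ν → DS s q ν → 515 / 1000 < w + P →
    (∀ η : ℝ, 0 < η → ∃ m₀ : ℕ, ∀ m : ℕ, m₀ ≤ m → ∀ (G : Type) [AddCommGroup G] [Fintype G]
      (T : Finset G), TileS s T m →
      (#{χ : AddChar G ℂ | χ ≠ 0 ∧ ν * m ≤ v T χ ^ 2} : ℝ) ≤ (1 - w + η) * Fintype.card G ∧
      (P - η) * Fintype.card G ≤
        #{χ : AddChar G ℂ | χ ≠ 0 ∧ v T χ ^ 2 < ν * m ∧ 3 • χ ≠ 0 ∧ v T (3 • χ) ^ 2 < ν * m}) →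
    ∃ m₀ : ℕ, ∀ m : ℕ, m₀ ≤ m → ∀ (G : Type) [AddCommGroup G] [Fintype G]
      (T : Finset G), TileS s T m →
      (Fintype.card G : ℝ) ≤ 100 * #{χ : AddChar G ℂ | V T χ = 0}

end

end Pool.Agent.H23.GB
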