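import Pool.Agent.H23.GA.ZLO
import Pool.Agent.H23.GB.TargetsA

/-!
Row ZLS of the board gb: lower bound of the zeta integral of the bump function, sharp exponent.
-/

namespace Pool.Agent.H23.GB

open MeasureTheory Pool.Agent.H34.GM Pool.Agent.H34.GZ Pool.Agent.H34.GU Pool.Agent.H34.GA
open Pool.Agent.H23.GA.ZL

theorem pf_ZLS (hI : T_BIA) : T_ZLS := by
  intro m χ hm hχ
  obtain ⟨C, hC, hbi⟩ := hI m χ hm hχ
  obtain ⟨K, hK, hdet⟩ := det_lip m
  have hC0 : 0 < C := by linarith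
  have hK0 : 0 < K := by linarith
  have hmr : (1 : ℝ) ≤ m := by exact_mod_cast hm
  refine ⟨1 / (8 * C * K * (m + 1)), 7 / 16 * ((K ^ m)⁻¹ * (m : ℝ)⁻¹ ^ (m * m)),
    by positivity, by positivity, ?_⟩
  intro f M b hf hb s δ hδ hδ2 hs hnear
  obtain ⟨hTg, hval⟩ := hbi δ hδ hδ2
  set μ : Measure (V m) := H34.GM.hm m with hμ
  set β : V m → ℝ := fun z => ‖bi m χ δ (mt z)‖ with hβ
  set w : ℂ := s + ((m : ℂ) - 1) / 2 with hw
  have hβc : Continuous β := (show Continuous fun z : V m => bi m χ δ (mt z) from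
    hTg.cont).norm
  have hβ0 : ∀ z, 0 ≤ β z := fun z => norm_nonneg _
  have hβ1 : ∀ z, β z ≤ 1 := fun z => (hval (mt z)).1
  -- on the support
  have hsup : ∀ z : V m, β z ≠ 0 → C⁻¹ ≤ |(mt z).det| ∧ ‖z‖ ≤ 2 ∧
      |Real.log (|(mt z).det|)| ≤ C * K * δ ∧ ‖f (mt z) - b‖ ≤ b / 4 := by
    intro z hz
    have hz' : bi m χ δ (mt z) ≠ 0 := norm_ne_zero_iff.1 hz
    obtain ⟨h1, h2, h3, -⟩ := (hval (mt z)).2.2.1 hz'
    refine ⟨h2, h1, ?_, hnear (mt z) h3⟩
    refine (log_bd hC h2).trans ?_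
    rw [mul_assoc]
    refine mul_le_mul_of_nonneg_left ?_ hC0.le
    have h4 := (hdet (mt z) h1).1
    have h5 : abs (abs (mt z).det - 1) ≤ abs ((mt z).det - 1) := by
      have := abs_abs_sub_abs_le_abs_sub (mt z).det 1
      rwa [abs_one] at this
    exact h5.trans (h4.trans (mul_le_mul_of_nonneg_left h3 hK0.le))
  have hwn : ‖w‖ ≤ (m + 1) * (1 + ‖s‖) := by
    have h1 : ‖((m : ℂ) - 1) / 2‖ ≤ m := by
      have h2 : ((m : ℂ) - 1) / 2 = (((m : ℝ) - 1) / 2 : ℝ) := by push_cast; ring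
      rw [h2, Complex.norm_real, Real.norm_of_nonneg (by linarith)]
      linarith
    have h3 := norm_add_le s (((m : ℂ) - 1) / 2)
    have h4 := norm_nonneg s
    nlinarith
  have hE : ∀ z : V m, β z ≠ 0 → ‖((|(mt z).det| : ℝ) : ℂ) ^ w - 1‖ ≤ 1 / 4 := by
    intro z hz
    obtain ⟨h1, -, h3, -⟩ := hsup z hz
    have h0 : 0 < |(mt z).det| := lt_of_lt_of_le (inv_pos.2 hC0) h1
    refine cpow_near h0 w ?_
    calc ‖w‖ * |Real.log (|(mt z).det|)| ≤ ((m + 1) * (1 + ‖s‖)) * (C * K * δ) :=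
          mul_le_mul hwn h3 (abs_nonneg _) (by positivity)
      _ = (C * K * (m + 1)) * (δ * (1 + ‖s‖)) := by ring
      _ ≤ (C * K * (m + 1)) * (1 / (8 * C * K * (m + 1))) :=
          mul_le_mul_of_nonneg_left hs (by positivity)
      _ = 1 / 8 := by field_simp
  set G : V m → ℂ := fun z => bi m χ δ (mt z) * ((|(mt z).det| : ℝ) : ℂ) ^ w * f (mt z) with hG
  have hGe : ∀ z, ‖G z - ((β z * b : ℝ) : ℂ)‖ ≤ 9 / 16 * (b * β z) := by
    intro z
    by_cases hz : β z = 0
    · have hz' : bi m χ δ (mt z) = 0 := norm_eq_zero.1 hz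
      have h1 : G z = 0 := by simp only [hG]; rw [hz', zero_mul, zero_mul]
      rw [h1, hz]
      simp
    · obtain ⟨-, -, -, h4⟩ := hsup z hz
      have h5 := hE z hz
      have h6 : G z - ((β z * b : ℝ) : ℂ) = (β z : ℂ) *
          ((((|(mt z).det| : ℝ) : ℂ) ^ w - 1) * f (mt z) + (f (mt z) - b)) := by
        have h7 : bi m χ δ (mt z) = ((β z : ℝ) : ℂ) := (hval (mt z)).2.1
        simp only [hG]
        rw [h7]
        push_cast
        ring
      rw [h6, norm_mul, Complex.norm_real, Real.norm_of_nonneg (hβ0 z)]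
      have h8 : ‖f (mt z)‖ ≤ 5 / 4 * b := by
        have := norm_add_le (f (mt z) - b) (b : ℂ)
        rw [sub_add_cancel, Complex.norm_real, Real.norm_of_nonneg hb.le] at this
        linarith
      have h9 : ‖(((|(mt z).det| : ℝ) : ℂ) ^ w - 1) * f (mt z) + (f (mt z) - b)‖ ≤
          9 / 16 * b := by
        refine (norm_add_le _ _).trans ?_
        rw [norm_mul]
        have h10 := mul_le_mul h5 h8 (norm_nonneg _) (by norm_num)
        linarith
      calc β z * ‖_‖ ≤ β z * (9 / 16 * b) := mul_le_mul_of_nonneg_left h9 (hβ0 z)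
        _ = _ := by ring
  -- integrability
  have hdm : Measurable fun z : V m => |(mt z).det| :=
    ((det_cont m).measurable).norm
  have hdens : Measurable fun z : V m => ENNReal.ofReal ((|(mt z).det| ^ m)⁻¹) :=
    ((hdm.pow_const m).inv).ennreal_ofReal
  have hβi : Integrable β μ := by
    refine ⟨hβc.aestronglyMeasurable, ?_⟩
    have h1 : ∫⁻ z, ‖β z‖ₑ ∂μ ≤ ∫⁻ z in Metric.closedBall (0 : V m) 2,
        ENNReal.ofReal (C ^ m) := by
      rw [hμ]
      unfold H34.GM.hm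
      rw [lintegral_withDensity_eq_lintegral_mul _ hdens hβc.measurable.enorm,
        ← lintegral_indicator Metric.isClosed_closedBall.measurableSet]
      refine lintegral_mono fun z => ?_
      simp only [Pi.mul_apply]
      by_cases hz : β z = 0
      · rw [hz]
        simp
      · obtain ⟨h2, h3, -, -⟩ := hsup z hz
        rw [Set.indicator_of_mem (by rw [mem_closedBall_zero_iff]; exact h3)]
        have h4 : ‖β z‖ₑ ≤ 1 := by
          rw [← ofReal_norm, Real.norm_of_nonneg (hβ0 z)]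
          exact ENNReal.ofReal_le_one.2 (hβ1 z)
        have h5 : (|(mt z).det| ^ m)⁻¹ ≤ C ^ m := by
          have h6 : (C⁻¹) ^ m ≤ |(mt z).det| ^ m := pow_le_pow_left₀ (by positivity) h2 m
          have h7 : 0 < (C⁻¹) ^ m := by positivity
          have h8 := inv_anti₀ h7 h6
          rwa [inv_pow, inv_inv] at h8
        calc ENNReal.ofReal ((|(mt z).det| ^ m)⁻¹) * ‖β z‖ₑ
            ≤ ENNReal.ofReal (C ^ m) * 1 := mul_le_mul' (ENNReal.ofReal_le_ofReal h5) h4
          _ = _ := mul_one _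
    refine lt_of_le_of_lt h1 ?_
    rw [setLIntegral_const]
    exact ENNReal.mul_lt_top ENNReal.ofReal_lt_top measure_closedBall_lt_top
  have hGm : AEStronglyMeasurable G μ := by
    refine AEStronglyMeasurable.mul (AEStronglyMeasurable.mul ?_ ?_) hf.meas
    · exact (show Continuous fun z : V m => bi m χ δ (mt z) from
        hTg.cont).aestronglyMeasurable
    · have : Measurable fun z : V m => ((|(mt z).det| : ℝ) : ℂ) ^ w :=
        (Complex.measurable_ofReal.comp hdm).pow_const w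
      exact this.aestronglyMeasurable
  have hDi : Integrable (fun z => G z - ((β z * b : ℝ) : ℂ)) μ := by
    refine Integrable.mono' ((hβi.const_mul b).const_mul (9 / 16)) ?_
      (Filter.Eventually.of_forall hGe)
    refine hGm.sub ?_
    exact (Complex.measurable_ofReal.comp (hβc.measurable.mul_const b)).aestronglyMeasurable
  have hbi2 : Integrable (fun z => ((β z * b : ℝ) : ℂ)) μ := (hβi.mul_const b).ofReal
  have hZ : ZA (bi m χ δ) f s = ∫ z, (G z - ((β z * b : ℝ) : ℂ)) ∂μ +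
      ∫ z, ((β z * b : ℝ) : ℂ) ∂μ := by
    rw [← integral_add hDi hbi2]
    unfold ZA
    refine integral_congr_ae (Filter.Eventually.of_forall fun z => ?_)
    show G z = G z - ((β z * b : ℝ) : ℂ) + ((β z * b : ℝ) : ℂ)
    rw [sub_add_cancel]
  have hI2 : ∫ z, ((β z * b : ℝ) : ℂ) ∂μ = (((∫ z, β z ∂μ) * b : ℝ) : ℂ) := by
    rw [integral_complex_ofReal, integral_mul_const]
  have hD : ‖∫ z, (G z - ((β z * b : ℝ) : ℂ)) ∂μ‖ ≤ 9 / 16 * (b * ∫ z, β z ∂μ) := by
    refine (norm_integral_le_integral_norm _).trans ?_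
    rw [← integral_const_mul, ← integral_const_mul]
    exact integral_mono hDi.norm ((hβi.const_mul b).const_mul (9 / 16)) hGe
  have hI0 : 0 ≤ ∫ z, β z ∂μ := integral_nonneg hβ0
  have hlow : 7 / 16 * (b * ∫ z, β z ∂μ) ≤ ‖ZA (bi m χ δ) f s‖ := by
    rw [hZ, hI2]
    have h1 : ‖((((∫ z, β z ∂μ) * b : ℝ)) : ℂ)‖ = b * ∫ z, β z ∂μ := by
      rw [Complex.norm_real, Real.norm_of_nonneg (by positivity), mul_comm]
    have h2 := norm_sub_norm_le ((((∫ z, β z ∂μ) * b : ℝ)) : ℂ)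
      (-(∫ z, (G z - ((β z * b : ℝ) : ℂ)) ∂μ))
    rw [sub_neg_eq_add, norm_neg, h1, add_comm] at h2
    linarith
  -- the mass
  have hmass : (K ^ m)⁻¹ * (m : ℝ)⁻¹ ^ (m * m) * δ ^ (m * m) ≤ ∫ z, β z ∂μ := by
    rw [integral_eq_lintegral_of_nonneg_ae (Filter.Eventually.of_forall hβ0)
      hβc.aestronglyMeasurable]
    have hfin : ∫⁻ z, ENNReal.ofReal (β z) ∂μ ≠ ⊤ := by
      have := hβi.2
      rw [hasFiniteIntegral_iff_ofReal (Filter.Eventually.of_forall hβ0)] at this
      exact this.ne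
    rw [← ENNReal.ofReal_le_iff_le_toReal hfin]
    set B : Set (V m) := Metric.closedBall (fun i j => (1 : Mat m) i j) (δ / (2 * m)) with hB
    have hBm : MeasurableSet B := Metric.isClosed_closedBall.measurableSet
    have hin : ∀ z ∈ B, sz (mt z - 1) ≤ δ / (2 * m) := by
      intro z hz
      rw [hB, mem_closedBall_iff_norm] at hz
      exact hz
    have hβB : ∀ z ∈ B, β z = 1 := by
      intro z hz
      simp only [hβ]
      rw [(hval (mt z)).2.2.2 (hin z hz), norm_one]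
    have h1 : μ B ≤ ∫⁻ z, ENNReal.ofReal (β z) ∂μ := by
      calc μ B = ∫⁻ _z in B, 1 ∂μ := by rw [setLIntegral_one]
        _ ≤ ∫⁻ z in B, ENNReal.ofReal (β z) ∂μ := by
            refine setLIntegral_mono' hBm fun z hz => ?_
            rw [hβB z hz, ENNReal.ofReal_one]
        _ ≤ _ := setLIntegral_le_lintegral _ _
    refine le_trans ?_ h1
    rw [hμ]
    unfold H34.GM.hm
    rw [withDensity_apply _ hBm]
    have h2 : ∀ z ∈ B, ENNReal.ofReal ((K ^ m)⁻¹) ≤ ENNReal.ofReal ((|(mt z).det| ^ m)⁻¹) := by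
      intro z hz
      refine ENNReal.ofReal_le_ofReal ?_
      have h3 : bi m χ δ (mt z) ≠ 0 := by
        have := hβB z hz
        intro h0
        simp only [hβ] at this
        rw [h0, norm_zero] at this
        exact zero_ne_one this
      obtain ⟨h4, h5, -, -⟩ := (hval (mt z)).2.2.1 h3
      have h6 := (hdet (mt z) h4).2
      have h7 : 0 < |(mt z).det| := lt_of_lt_of_le (inv_pos.2 hC0) h5
      exact inv_anti₀ (by positivity) (pow_le_pow_left₀ h7.le h6 m)
    refine le_trans ?_ (setLIntegral_mono' hBm h2)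
    rw [setLIntegral_const, hB, vol_ball m _ (by positivity), ← ENNReal.ofReal_mul (by positivity)]
    refine ENNReal.ofReal_le_ofReal (le_of_eq ?_)
    have h8 : 2 * (δ / (2 * m)) = (m : ℝ)⁻¹ * δ := by field_simp
    rw [h8, mul_pow]
    ring
  calc 7 / 16 * ((K ^ m)⁻¹ * (m : ℝ)⁻¹ ^ (m * m)) * b * δ ^ (m * m)
      = 7 / 16 * (b * ((K ^ m)⁻¹ * (m : ℝ)⁻¹ ^ (m * m) * δ ^ (m * m))) := by ring
    _ ≤ 7 / 16 * (b * ∫ z, β z ∂μ) := by
        refine mul_le_mul_of_nonneg_left (mul_le_mul_of_nonneg_left hmass hb.le) (by norm_num)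
    _ ≤ _ := hlow

end Pool.Agent.H23.GB
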